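import Pool.Agent.Lib.MP_a52643_an.H53Main

/-!
The spectral expansion of the fourth moment on a compact hyperbolic surface: along a sequence of
density one, all ranges except the two endpoints carry the Gaussian value, and the excess of the
fourth moment is shared between the two endpoints in the ratio two to one.
-/

open MeasureTheory Filter Topology UpperHalfPlane Real
open scoped MatrixGroups ContDiff Laplacian

namespace Pool.Agent.Variants.MP_a52643_an.BulkRange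

open Pool.Agent.Lib.MP_a52643_an

theorem result {Γ : Type} [Group Γ] [Countable Γ] [MulAction Γ ℍ]
    (hΓ : ∀ γ : Γ, ∃ g : SL(2, ℝ), ∀ z : ℍ, γ • z = g • z)
    (D : Set ℍ) (hD : IsFundamentalDomain Γ D) (hvol : volume D ≠ ⊤)
    (K : Set ℍ) (hK : IsCompact K) (hcpt : ∀ z : ℍ, ∃ γ : Γ, γ • z ∈ K)
    (φ : ℕ → ℍ → ℝ) (lam : ℕ → ℝ)
    (hinv : ∀ (j : ℕ) (γ : Γ) (z : ℍ), φ j (γ • z) = φ j z)
    (hsm : ∀ j, ContDiffOn ℝ ∞ (fun w : ℂ => φ j (ofComplex w)) {w | 0 < w.im})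
    (heig : ∀ (j : ℕ) (z : ℍ),
      z.im ^ 2 * Δ (fun w : ℂ => φ j (ofComplex w)) z = -lam j * φ j z)
    (hmono : Monotone lam) (hlam : Tendsto lam atTop atTop)
    (b : HilbertBasis ℕ ℝ (Lp ℝ 2 (volume.restrict D)))
    (hb : ∀ j, b j =ᵐ[volume.restrict D] φ j) :
    ∃ S : Set ℕ, Tendsto (fun J : ℕ => ((S ∩ Set.Iio J).ncard : ℝ) / J) atTop (𝓝 1) ∧
      ∀ g : ℝ → ℝ, ContDiff ℝ 2 g → (∃ (C : ℝ) (d : ℕ), ∀ s, |g s| ≤ C * (1 + |s|) ^ d) →
        (∀ j, Summable fun k => g (lam k / lam j) * (∫ z in D, φ j z ^ 2 * φ k z) ^ 2) ∧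
        Tendsto (fun j => ∑' k, g (lam k / lam j) * (∫ z in D, φ j z ^ 2 * φ k z) ^ 2
          - (g 0 / volume.real D
            + 2 / volume.real D * (π⁻¹ * ∫ θ in (0 : ℝ)..π, g (2 + 2 * cos θ))
            + (2 * g 0 + g 4) / 3 * ((∫ z in D, φ j z ^ 4) - 3 / volume.real D)))
          (atTop ⊓ 𝓟 S) (𝓝 0) := by
  obtain ⟨l, D', hF, e⟩ := exists_FD hΓ hD hvol
  obtain ⟨w, hG⟩ := H53.exists_geo hF hK hcpt
  obtain ⟨Φ, hS⟩ := H53.exists_spec hF hK hcpt hinv hsm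
    (fun j z hz => by simpa [ofComplex_apply_of_im_pos hz] using heig j ⟨z, hz⟩) hmono hlam e b hb
  simp only [← setIntegral_congr_set e, ← measureReal_congr e]
  exact hS.main hG

end Pool.Agent.Variants.MP_a52643_an.BulkRange
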