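import Pool.Agent.Lib.MP_a52643_an.CP.Top

/-!
The number of critical points of Laplace eigenfunctions tends to infinity on every compact
quotient of the hyperbolic plane, for every smooth metric `ρ` times the hyperbolic metric.
-/

open UpperHalfPlane
open scoped MatrixGroups ContDiff Laplacian

namespace Pool.Agent.Variants.MP_a52643_an.CriticalPoints

open Pool.Agent.Lib.MP_a52643_an

theorem result {Γ : Type} [Group Γ] [MulAction Γ ℍ] [ProperlyDiscontinuousSMul Γ ℍ]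
    (hΓ : ∀ γ : Γ, ∃ g : SL(2, ℝ), ∀ z : ℍ, γ • z = g • z)
    (K : Set ℍ) (hK : IsCompact K) (hcov : ∀ z : ℍ, ∃ γ : Γ, γ • z ∈ K)
    (ρ : ℍ → ℝ) (hρ0 : ∀ z, 0 < ρ z) (hρi : ∀ (γ : Γ) (z : ℍ), ρ (γ • z) = ρ z)
    (hρs : ContDiffOn ℝ ∞ (fun w : ℂ => ρ (ofComplex w)) {w | 0 < w.im}) (N : ℕ) :
    ∃ L : ℝ, ∀ (φ : ℍ → ℝ) (lam : ℝ),
      (∀ (γ : Γ) (z : ℍ), φ (γ • z) = φ z) →
      ContDiffOn ℝ ∞ (fun w : ℂ => φ (ofComplex w)) {w | 0 < w.im} →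
      (∀ z : ℍ, z.im ^ 2 * Δ (fun w : ℂ => φ (ofComplex w)) z = -lam * ρ z * φ z) → L ≤ lam →
      ∃ z : Fin N → ℍ, (∀ i, fderiv ℝ (fun w : ℂ => φ (ofComplex w)) (z i) = 0) ∧
        ∀ i j (γ : Γ), γ • z i = z j → i = j :=
  CP.top hΓ K hK hcov ρ hρ0 hρi hρs N

end Pool.Agent.Variants.MP_a52643_an.CriticalPoints
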