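import Pool.Agent.Lib.MP_a52643_an.H60Glob

/-!
Power saving bound for cubic moments and triple products of Laplace eigenfunctions on surfaces,
where the curvature does not vanish.  The metric is `ρ` times the hyperbolic metric; its Gauss
curvature is the quantity in `hcurv`.
-/

open MeasureTheory Filter UpperHalfPlane
open scoped MatrixGroups ContDiff Laplacian

namespace Pool.Agent.Variants.MP_a52643_an.CubicMoment

open Pool.Agent.Lib.MP_a52643_an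

theorem result {Γ : Type} [Group Γ] [Countable Γ] [MulAction Γ ℍ]
    (hΓ : ∀ γ : Γ, ∃ g : SL(2, ℝ), ∀ z : ℍ, γ • z = g • z)
    (D : Set ℍ) (hD : IsFundamentalDomain Γ D) (hvol : volume D ≠ ⊤)
    (ρ : ℍ → ℝ) (hρ0 : ∀ z, 0 < ρ z) (hρi : ∀ (γ : Γ) (z : ℍ), ρ (γ • z) = ρ z)
    (hρs : ContDiffOn ℝ ∞ (fun w : ℂ => ρ (ofComplex w)) {w | 0 < w.im})
    (ψ : ℍ → ℝ) (hψi : ∀ (γ : Γ) (z : ℍ), ψ (γ • z) = ψ z)
    (hψs : ContDiffOn ℝ ∞ (fun w : ℂ => ψ (ofComplex w)) {w | 0 < w.im})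
    (K : Set ℍ) (hK : IsCompact K) (hψK : ∀ z, ψ z ≠ 0 → ∃ γ : Γ, γ • z ∈ K)
    (hcurv : ∀ z ∈ tsupport ψ,
      (-1 - z.im ^ 2 * Δ (fun w : ℂ => Real.log (ρ (ofComplex w))) z / 2) / ρ z ≠ 0)
    (κ : ℝ) (hκ : 0 < κ) :
    ∃ C L : ℝ, ∀ (φ : Fin 3 → ℍ → ℝ) (lam : Fin 3 → ℝ),
      (∀ (i : Fin 3) (γ : Γ) (z : ℍ), φ i (γ • z) = φ i z) →
      (∀ i, ContDiffOn ℝ ∞ (fun w : ℂ => φ i (ofComplex w)) {w | 0 < w.im}) →
      (∀ (i : Fin 3) (z : ℍ),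
        z.im ^ 2 * Δ (fun w : ℂ => φ i (ofComplex w)) z = -lam i * ρ z * φ i z) →
      (∀ i, ∫ z in D, φ i z ^ 2 * ρ z = 1) → (∀ i, L ≤ lam i) →
      (∀ i, (2 + κ) * √(lam i) ≤ ∑ j, √(lam j)) →
      |∫ z in D, ψ z * (φ 0 z * φ 1 z * φ 2 z) * ρ z| ≤ C * lam 0 ^ (-(1 / 16) : ℝ) := by
  obtain ⟨l, D', hF, e⟩ := exists_FD hΓ hD hvol
  simp only [← setIntegral_congr_set e]
  refine H60.glob hF hρ0 hρi hρs hψi hψs hK hψK (fun z hz h => hcurv z hz ?_) hκ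
  rw [div_eq_zero_iff]
  left
  linarith

end Pool.Agent.Variants.MP_a52643_an.CubicMoment
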