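import Pool.Agent.Lib.MP_a52643_an.VC.UnifV

/-!
Sharp Gaussian lower bound for the truncated fourth moment of Laplace eigenfunctions on every
negatively curved surface that is compact, or hyperbolic of finite area, with a defect term
measuring the failure of equidistribution.  The metric is `ρ` times the hyperbolic metric; its
Gauss curvature is the quantity in `hcurv`.
-/

open MeasureTheory Filter UpperHalfPlane
open scoped MatrixGroups ContDiff Laplacian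

namespace Pool.Agent.Variants.MP_a52643_an.FourthAll

open Pool.Agent.Lib.MP_a52643_an

theorem result {Γ : Type} [Group Γ] [Countable Γ] [MulAction Γ ℍ]
    (hΓ : ∀ γ : Γ, ∃ g : SL(2, ℝ), ∀ z : ℍ, γ • z = g • z)
    (D : Set ℍ) (hD : IsFundamentalDomain Γ D) (hvol : volume D ≠ ⊤)
    (ρ : ℍ → ℝ) (hρ0 : ∀ z, 0 < ρ z) (hρi : ∀ (γ : Γ) (z : ℍ), ρ (γ • z) = ρ z)
    (hρs : ContDiffOn ℝ ∞ (fun w : ℂ => ρ (ofComplex w)) {w | 0 < w.im})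
    (K : Set ℍ) (hK : IsCompact K) (hρK : ∀ z, ρ z ≠ 1 → ∃ γ : Γ, γ • z ∈ K)
    (hcurv : ∀ z : ℍ,
      (-1 - z.im ^ 2 * Δ (fun w : ℂ => Real.log (ρ (ofComplex w))) z / 2) / ρ z < 0)
    (ψ : ℍ → ℝ) (hψ : Measurable ψ) (B : ℝ) (hB : ∀ z, |ψ z| ≤ B)
    (hmean : ∫ z in D, ψ z * ρ z = 0) (hsq : ∫ z in D, ψ z ^ 2 * ρ z ≤ 1) (ε : ℝ) (hε : 0 < ε) :
    ∃ N > 0, ∃ L : ℝ, ∀ (φ : ℍ → ℝ) (lam : ℝ),
      (∀ (γ : Γ) (z : ℍ), φ (γ • z) = φ z) →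
      ContDiffOn ℝ ∞ (fun w : ℂ => φ (ofComplex w)) {w | 0 < w.im} →
      (∀ z : ℍ, z.im ^ 2 * Δ (fun w : ℂ => φ (ofComplex w)) z = -lam * ρ z * φ z) →
      ∫ z in D, φ z ^ 2 * ρ z = 1 → L ≤ lam →
      3 / (∫ z in D, ρ z) + 3 * (∫ z in D, ψ z * φ z ^ 2 * ρ z) ^ 2 - ε
        ≤ ∫ z in D, (φ z ^ 4 - max (φ z ^ 2 - N) 0 ^ 2) * ρ z :=
  trunc_fourth_all hΓ D hD hvol ρ hρ0 hρi hρs K hK hρK hcurv ψ hψ B hB hmean hsq ε hε

end Pool.Agent.Variants.MP_a52643_an.FourthAll
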