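import Pool.Agent.Lib.MP_a52643_an.Law.Unif

/-!
Corollaries at the level of limit laws: moments of a limit law with full variance, and
equidistribution of the squares when the limit law is the conjectured Gaussian.
-/

open MeasureTheory Filter UpperHalfPlane Topology ProbabilityTheory
open scoped MatrixGroups ContDiff Laplacian BoundedContinuousFunction NNReal

namespace Pool.Agent.Variants.MP_a52643_an.LimitLaw

open Pool.Agent.Lib.MP_a52643_an

theorem limit_law {Γ : Type} [Group Γ] [Countable Γ] [MulAction Γ ℍ]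
    (hΓ : ∀ γ : Γ, ∃ g : SL(2, ℝ), ∀ z : ℍ, γ • z = g • z)
    (D : Set ℍ) (hD : IsFundamentalDomain Γ D) (hvol : volume D ≠ ⊤)
    (φ : ℕ → ℍ → ℝ) (lam : ℕ → ℝ)
    (hinv : ∀ (j : ℕ) (γ : Γ) (z : ℍ), φ j (γ • z) = φ j z)
    (hsm : ∀ j, ContDiffOn ℝ ∞ (fun w : ℂ => φ j (ofComplex w)) {w | 0 < w.im})
    (heig : ∀ (j : ℕ) (z : ℂ), 0 < z.im →
      z.im ^ 2 * Δ (fun w : ℂ => φ j (ofComplex w)) z = -lam j * φ j (ofComplex z))
    (hlam : Tendsto lam atTop atTop)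
    (hnorm : ∀ j, ∫ z in D, φ j z ^ 2 = 1)
    (ν : Measure ℝ) [IsProbabilityMeasure ν]
    (hlaw : ∀ g : ℝ →ᵇ ℝ, Tendsto (fun j => 1 / volume.real D * ∫ z in D, g (φ j z)) atTop
      (𝓝 (∫ t, g t ∂ν)))
    (hvar : ∫ t, t ^ 2 ∂ν = 1 / volume.real D) (hfour : Integrable (fun t : ℝ => t ^ 4) ν) :
    ∫ t, t ^ 3 ∂ν = 0 ∧ ∀ (ψ : ℍ → ℝ) (B : ℝ), Measurable ψ → (∀ z, |ψ z| ≤ B) →
      ∫ z in D, ψ z = 0 → ∫ z in D, ψ z ^ 2 ≤ 1 → ∀ ε > 0, ∀ᶠ j in atTop,
        3 / volume.real D + 3 * (∫ z in D, ψ z * φ j z ^ 2) ^ 2 - ε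
          ≤ volume.real D * ∫ t, t ^ 4 ∂ν := by
  obtain ⟨l, D', hF, e⟩ := exists_FD hΓ hD hvol
  simp only [← setIntegral_congr_set e, ← measureReal_congr e] at hnorm hlaw hvar ⊢
  have V0 : volume.real D' ≠ 0 := by
    refine (ENNReal.toReal_pos (fun e => ?_) hF.fin).ne'
    have := hnorm 0
    rw [Measure.restrict_eq_zero.2 e, integral_zero_measure] at this
    exact zero_ne_one this
  have h : ∀ j, Eig2 Γ D' (φ j) (lam j) := fun j => ⟨hinv j, hsm j, heig j, by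
    by_contra h'
    have h4 := hnorm j
    rw [integral_undef h'] at h4
    exact zero_ne_one h4⟩
  have hL : LawTo D' φ ν := fun g C hg hC => by
    have := (hlaw (BoundedContinuousFunction.ofNormedAddCommGroup g hg C hC)).const_mul
      (volume.real D')
    simpa [← mul_assoc, V0] using this
  have h2 : volume.real D' * ∫ t, t ^ 2 ∂ν = 1 := by rw [hvar]; field_simp
  exact ⟨law_third hF hlam h hnorm hL h2 hfour, fun ψ B hψ hB h0 h1 ε hε =>
    law_fourth hF hlam h hnorm hL h2 hfour hψ hB h0 h1 hε⟩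

lemma gauss_four (v : ℝ≥0) : ∫ t, t ^ 4 ∂gaussianReal 0 v = 3 * (v : ℝ) ^ 2 := by
  have d : ∀ (a b c e t : ℝ), HasDerivAt
      (fun t : ℝ => (a + b * t + c * t ^ 2 + e * t ^ 3) * Real.exp (v * t ^ 2 / 2))
      ((b + (2 * c + a * v) * t + (3 * e + b * v) * t ^ 2 + c * v * t ^ 3 + e * v * t ^ 4)
        * Real.exp (v * t ^ 2 / 2)) t := fun a b c e t => by
    have h1 : HasDerivAt (fun t : ℝ => a + b * t + c * t ^ 2 + e * t ^ 3)
        (b + c * (2 * t) + e * (3 * t ^ 2)) t := by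
      simpa using ((((hasDerivAt_id t).const_mul b).const_add a).fun_add
        ((hasDerivAt_pow 2 t).const_mul c)).fun_add ((hasDerivAt_pow 3 t).const_mul e)
    have h2 : HasDerivAt (fun t : ℝ => Real.exp (v * t ^ 2 / 2))
        (Real.exp (v * t ^ 2 / 2) * (v * (2 * t) / 2)) t := by
      simpa using (((hasDerivAt_pow 2 t).const_mul (v : ℝ)).div_const 2).exp
    exact (h1.fun_mul h2).congr_deriv (by ring)
  have e0 : ∫ t, t ^ 4 ∂gaussianReal 0 v
      = iteratedDeriv 4 (mgf (fun x ↦ x) (gaussianReal 0 v)) 0 := by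
    rw [iteratedDeriv_mgf_zero] <;> simp
  have d1 : deriv (fun t : ℝ => Real.exp (0 * t + v * t ^ 2 / 2)) = fun t =>
      (0 + v * t + 0 * t ^ 2 + 0 * t ^ 3) * Real.exp (v * t ^ 2 / 2) := by
    ext t
    have := (d 1 0 0 0 t).deriv
    simpa using this
  have d2 : deriv (fun t : ℝ => (0 + v * t + 0 * t ^ 2 + 0 * t ^ 3) * Real.exp (v * t ^ 2 / 2))
      = fun t => (v + 0 * t + v ^ 2 * t ^ 2 + 0 * t ^ 3) * Real.exp (v * t ^ 2 / 2) := by
    ext t; rw [(d _ _ _ _ t).deriv]; ring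
  have d3 : deriv (fun t : ℝ => (v + 0 * t + v ^ 2 * t ^ 2 + 0 * t ^ 3) * Real.exp (v * t ^ 2 / 2))
      = fun t => (0 + 3 * v ^ 2 * t + 0 * t ^ 2 + v ^ 3 * t ^ 3) * Real.exp (v * t ^ 2 / 2) := by
    ext t; rw [(d _ _ _ _ t).deriv]; ring
  rw [e0, mgf_fun_id_gaussianReal, iteratedDeriv_succ', iteratedDeriv_succ', iteratedDeriv_succ',
    iteratedDeriv_one, d1, d2, d3, (d _ _ _ _ 0).deriv]
  simp

theorem gaussian_equidistribution {Γ : Type} [Group Γ] [Countable Γ] [MulAction Γ ℍ]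
    (hΓ : ∀ γ : Γ, ∃ g : SL(2, ℝ), ∀ z : ℍ, γ • z = g • z)
    (D : Set ℍ) (hD : IsFundamentalDomain Γ D) (hvol : volume D ≠ ⊤)
    (φ : ℕ → ℍ → ℝ) (lam : ℕ → ℝ)
    (hinv : ∀ (j : ℕ) (γ : Γ) (z : ℍ), φ j (γ • z) = φ j z)
    (hsm : ∀ j, ContDiffOn ℝ ∞ (fun w : ℂ => φ j (ofComplex w)) {w | 0 < w.im})
    (heig : ∀ (j : ℕ) (z : ℂ), 0 < z.im →
      z.im ^ 2 * Δ (fun w : ℂ => φ j (ofComplex w)) z = -lam j * φ j (ofComplex z))
    (hlam : Tendsto lam atTop atTop)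
    (hnorm : ∀ j, ∫ z in D, φ j z ^ 2 = 1)
    (hlaw : ∀ g : ℝ →ᵇ ℝ, Tendsto (fun j => 1 / volume.real D * ∫ z in D, g (φ j z)) atTop
      (𝓝 (∫ t, g t ∂gaussianReal 0 (1 / volume.real D).toNNReal)))
    (ψ : ℍ → ℝ) (B : ℝ) (hψ : Measurable ψ) (hB : ∀ z, |ψ z| ≤ B)
    (h0 : ∫ z in D, ψ z = 0) (h1 : ∫ z in D, ψ z ^ 2 ≤ 1) :
    Tendsto (fun j => ∫ z in D, ψ z * φ j z ^ 2) atTop (𝓝 0) := by
  have V0 : 0 < volume.real D := by
    refine ENNReal.toReal_pos (fun e => ?_) hvol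
    have := hnorm 0
    rw [Measure.restrict_eq_zero.2 e, integral_zero_measure] at this
    exact zero_ne_one this
  have c : ((1 / volume.real D).toNNReal : ℝ) = 1 / volume.real D :=
    Real.coe_toNNReal _ (by positivity)
  have h := (limit_law hΓ D hD hvol φ lam hinv hsm heig hlam hnorm _ hlaw (by
    have := variance_fun_id_gaussianReal (μ := 0) (v := (1 / volume.real D).toNNReal)
    rw [variance_eq_integral measurable_id'.aemeasurable, c] at this
    simpa using this) (by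
    simpa using (memLp_id_gaussianReal (μ := 0) (v := (1 / volume.real D).toNNReal)
      4).integrable_norm_pow' (p := 4) |>.mono' (by fun_prop) (Eventually.of_forall fun t => by
        simp))).2 ψ B hψ hB h0 h1
  rw [gauss_four, c] at h
  have e : volume.real D * (3 * (1 / volume.real D) ^ 2) = 3 / volume.real D := by field_simp
  rw [e] at h
  rw [Metric.tendsto_nhds]
  intro ε hε
  filter_upwards [h (ε ^ 2) (by positivity)] with j hj
  rw [Real.dist_eq, sub_zero]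
  exact abs_lt_of_sq_lt_sq (by nlinarith [pow_pos hε 2]) hε.le

end Pool.Agent.Variants.MP_a52643_an.LimitLaw
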