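import Pool.Agent.Lib.MP_a52643_an.NE.Main

/-!
On a hyperbolic surface of finite area a fixed part of the mass of every high energy Laplace
eigenfunction stays in a fixed compact set.
-/

open MeasureTheory UpperHalfPlane
open scoped MatrixGroups ContDiff Laplacian

namespace Pool.Agent.Variants.MP_a52643_an.NoFullEscape

open Pool.Agent.Lib.MP_a52643_an

theorem result {Γ : Type} [Group Γ] [Countable Γ] [MulAction Γ ℍ]
    (hΓ : ∀ γ : Γ, ∃ g : SL(2, ℝ), ∀ z : ℍ, γ • z = g • z)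
    (D : Set ℍ) (hD : IsFundamentalDomain Γ D) (hvol : volume D ≠ ⊤) :
    ∃ K : Set ℍ, IsCompact K ∧ ∃ L : ℝ, ∀ (φ : ℍ → ℝ) (lam : ℝ),
      (∀ (γ : Γ) (z : ℍ), φ (γ • z) = φ z) →
      ContDiffOn ℝ ∞ (fun w : ℂ => φ (ofComplex w)) {w | 0 < w.im} →
      (∀ z : ℍ, z.im ^ 2 * Δ (fun w : ℂ => φ (ofComplex w)) z = -lam * φ z) →
      ∫ z in D, φ z ^ 2 = 1 → L ≤ lam →
      1 / 10 ^ 9 ≤ ∫ z in D ∩ {z | ∃ γ : Γ, γ • z ∈ K}, φ z ^ 2 := by
  obtain ⟨l, D', hF, e⟩ := exists_FD hΓ hD hvol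
  obtain ⟨K, hK, L, H⟩ := NE.no_full_escape hF
  refine ⟨K, hK, L, fun φ lam h1 h2 h3 h4 h5 => ?_⟩
  rw [← setIntegral_congr_set e] at h4
  rw [← setIntegral_congr_set (e.inter (ae_eq_refl _))]
  exact H φ lam h1 h2 h3 h4 h5

end Pool.Agent.Variants.MP_a52643_an.NoFullEscape
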