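import Pool.Agent.Lib.MP_a52643_an.NS.Main
import Pool.Agent.Lib.MP_a52643_an.NS.Closed

/-!
On a compact hyperbolic surface the mass of a high energy Laplace eigenfunction near a family of
geodesics of small topological entropy, such as finitely many closed geodesics, stays below one
half by an absolute amount.
-/

open MeasureTheory Filter UpperHalfPlane
open scoped MatrixGroups ContDiff Laplacian

namespace Pool.Agent.Variants.MP_a52643_an.NoHalfScar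

open Pool.Agent.Lib.MP_a52643_an

theorem result {Γ : Type} [Group Γ] [Countable Γ] [MulAction Γ ℍ]
    (hΓ : ∀ γ : Γ, ∃ g : SL(2, ℝ), ∀ z : ℍ, γ • z = g • z)
    (D : Set ℍ) (hD : IsFundamentalDomain Γ D) (hvol : volume D ≠ ⊤)
    (K : Set ℍ) (hK : IsCompact K) (hcov : ∀ z : ℍ, ∃ γ : Γ, γ • z ∈ K)
    (S : Set (ℝ → ℍ))
    (hS : ∀ c ∈ S, ∃ g : SL(2, ℝ), ∀ t, ((g⁻¹ • c t : ℍ) : ℂ) = Real.exp t * Complex.I)
    (hent : ∀ᶠ T : ℝ in atTop, ∃ F : Finset (ℝ → ℍ), (F.card : ℝ) ≤ Real.exp (T / 10 ^ 14) ∧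
      ∀ c ∈ S, ∀ (γ : Γ) (t : ℝ), γ • c t ∈ K →
        ∃ f ∈ F, ∀ s ∈ Set.Icc (-T) T, dist (γ • c (t + s)) (f s) ≤ 1) :
    ∃ ε > 0, ∃ L : ℝ, ∀ (φ : ℍ → ℝ) (lam : ℝ),
      (∀ (γ : Γ) (z : ℍ), φ (γ • z) = φ z) →
      ContDiffOn ℝ ∞ (fun w : ℂ => φ (ofComplex w)) {w | 0 < w.im} →
      (∀ z : ℂ, 0 < z.im →
        z.im ^ 2 * Δ (fun w : ℂ => φ (ofComplex w)) z = -lam * φ (ofComplex z)) →
      ∫ z in D, φ z ^ 2 = 1 → L ≤ lam →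
      ∫ z in {z ∈ D | ∃ c ∈ S, ∃ (γ : Γ) (t : ℝ), dist (γ • z) (c t) < ε}, φ z ^ 2
        ≤ 1 / 2 - 1 / 10 ^ 14 := by
  obtain ⟨l, D', hF, e⟩ := exists_FD hΓ hD hvol
  obtain ⟨T₀, hT⟩ := eventually_atTop.1 hent
  have hS' : ∀ c ∈ S, ∃ g : SL2, (fun t => g • NS.pt 0 t) = c := fun c hc => by
    obtain ⟨g, hg⟩ := hS c hc
    refine ⟨g, funext fun t => ?_⟩
    rw [eq_comm, ← inv_smul_eq_iff]
    apply UpperHalfPlane.ext
    rw [hg, NS.coe_pt]; simp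
  obtain ⟨ε, hε, L, H⟩ := NS.no_half_scar hF hK hcov (A := {g | (fun t => g • NS.pt 0 t) ∈ S})
    (T₀ := T₀) fun T h => (hT T h).imp fun F h' => ⟨h'.1, fun g hg => h'.2 _ hg⟩
  refine ⟨ε, hε, L, fun φ lam h1 h2 h3 h4 h5 => ?_⟩
  rw [← setIntegral_congr_set e] at h4
  refine le_of_eq_of_le (setIntegral_congr_set ?_) (H φ lam h1 h2 h3 h4 h5)
  refine e.symm.inter (Eq.eventuallyEq (Set.ext fun z => ⟨?_, ?_⟩))
  · rintro ⟨c, hc, γ, t, h⟩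
    obtain ⟨g, rfl⟩ := hS' c hc
    exact ⟨g, hc, γ, t, h⟩
  · rintro ⟨g, hg, γ, t, h⟩
    exact ⟨_, hg, γ, t, h⟩

end Pool.Agent.Variants.MP_a52643_an.NoHalfScar
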