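import Pool.Agent.Lib.MP_a52643_an.YA.Glob

/-!
The length of the nodal set of Laplace eigenfunctions on closed smooth surfaces. In the chart at
`x` the metric is `σ x` times the Euclidean metric, so the eigenvalue equation is
`Δ φ = -λ σ x φ`.
-/

open MeasureTheory
open scoped ContDiff Laplacian

namespace Pool.Agent.Variants.MP_a52643_an.NodalLength

open Pool.Agent.Lib.MP_a52643_an

theorem result {X : Type} [MetricSpace X] [MeasurableSpace X] [BorelSpace X] [ChartedSpace ℂ X]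
    [CompactSpace X] [ConnectedSpace X] (σ : X → ℂ → ℝ)
    (hσ : ∀ x, ContDiffOn ℝ ∞ (σ x) (chartAt ℂ x).target)
    (hL : ∀ x : X, LocallyLipschitzOn (chartAt ℂ x).target (chartAt ℂ x).symm)
    (x : X) (K : Set ℂ) (hK : IsCompact K) (hKx : K ⊆ (chartAt ℂ x).target) :
    ∃ C : ℝ, ∀ (φ : X → ℝ) (lam : ℝ), 3 ≤ lam → φ ≠ 0 →
      (∀ x, ContDiffOn ℝ ∞ (φ ∘ (chartAt ℂ x).symm) (chartAt ℂ x).target) →
      (∀ x, ∀ z ∈ (chartAt ℂ x).target,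
        Δ (φ ∘ (chartAt ℂ x).symm) z = -lam * σ x z * φ ((chartAt ℂ x).symm z)) →
      μH[1] {p | φ p = 0} ≤ ENNReal.ofReal (C * √(lam * Real.log lam ^ 5)) ∧
      ∀ δ : ℝ, 0 < δ → volume {z ∈ K | |φ ((chartAt ℂ x).symm z)| ≤
          δ * ‖fderiv ℝ (φ ∘ (chartAt ℂ x).symm) z‖} ≤
        ENNReal.ofReal (C * δ * √(lam * Real.log lam ^ 5)) := by
  obtain ⟨C₁, c1, H₁⟩ := YA.main3 hσ hL
  obtain ⟨C₂, c2, H₂⟩ := YA.main2 hσ x K hK hKx
  refine ⟨C₁ + C₂, fun φ lam h1 h2 h3 h4 => ⟨(H₁ φ lam h1 h2 ⟨h3, h4⟩).trans ?_, fun δ hδ =>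
    ((H₂ φ lam h1 h2 ⟨h3, h4⟩).2 δ hδ).trans ?_⟩⟩
  · exact ENNReal.ofReal_le_ofReal (by gcongr; linarith)
  · exact ENNReal.ofReal_le_ofReal (by gcongr; linarith)

end Pool.Agent.Variants.MP_a52643_an.NodalLength
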