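import Pool.Agent.Lib.MP_a52643_an.SE.Main3
import Pool.Agent.Lib.MP_a52643_an.SE.Inv3
import Pool.Agent.Lib.MP_a52643_an.SE.Anc2

/-!
On a compact hyperbolic surface every weak limit of the microlocal lifts of high energy Laplace
eigenfunctions is a flow invariant lift of the limit of the squares whose entropy is strictly
larger than one half.
-/

open MeasureTheory Filter UpperHalfPlane
open scoped MatrixGroups ContDiff Laplacian Topology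

namespace Pool.Agent.Variants.MP_a52643_an.StrictEntropy

open Pool.Agent.Lib.MP_a52643_an

theorem result [MeasurableSpace SL(2, ℝ)] [BorelSpace SL(2, ℝ)]
    {Γ : Type} [Group Γ] [Countable Γ] [MulAction Γ ℍ]
    (hΓ : ∀ γ : Γ, ∃ g : SL(2, ℝ), ∀ z : ℍ, γ • z = g • z)
    (hfree : ∀ (γ : Γ) (z : ℍ), γ • z = z → γ = 1)
    (D : Set ℍ) (hD : IsFundamentalDomain Γ D) (hvol : volume D ≠ ⊤)
    (K : Set ℍ) (hK : IsCompact K) (hcov : ∀ z : ℍ, ∃ γ : Γ, γ • z ∈ K)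
    (Λ : Set SL(2, ℝ)) (hΛ : ∀ g, g ∈ Λ ↔ ∃ γ : Γ, ∀ z : ℍ, γ • z = g • z)
    (ν : Measure SL(2, ℝ)) [ν.IsMulLeftInvariant] [ν.IsMulRightInvariant]
    (hν : MeasurePreserving (fun g : SL(2, ℝ) => g • (I : ℍ)) ν volume)
    (a : ℝ → SL(2, ℝ))
    (ha : ∀ t, (a t : Matrix (Fin 2) (Fin 2) ℝ) = !![Real.exp (-t / 2), 0; 0, Real.exp (t / 2)])
    (φ : ℕ → ℍ → ℝ) (r : ℕ → ℝ) (hr : Tendsto r atTop atTop)
    (h1 : ∀ j (γ : Γ) (z : ℍ), φ j (γ • z) = φ j z)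
    (h2 : ∀ j, ContDiffOn ℝ ∞ (fun w : ℂ => φ j (ofComplex w)) {w | 0 < w.im})
    (h3 : ∀ j (z : ℂ), 0 < z.im → z.im ^ 2 * Δ (fun w : ℂ => φ j (ofComplex w)) z
      = -(1 / 4 + r j ^ 2) * φ j (ofComplex z))
    (h4 : ∀ j, ∫ z in D, φ j z ^ 2 = 1)
    (Φ : ℕ → SL(2, ℝ) → ℂ)
    (hΦ : ∀ j g, Φ j g = ∫ t in (0 : ℝ)..r j ^ (-1 / 3 : ℝ),
      Complex.exp (-(r j * t) * Complex.I) * φ j ((g * a t) • (I : ℍ)))
    (μ : Measure SL(2, ℝ)) [IsProbabilityMeasure μ]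
    (hlim : ∀ F : SL(2, ℝ) → ℝ, Continuous F → (∃ B, ∀ g, |F g| ≤ B) →
      (∀ γ ∈ Λ, ∀ g, F (γ * g) = F g) →
      Tendsto (fun j => (∫ g in {g | g • (I : ℍ) ∈ D}, F g * ‖Φ j g‖ ^ 2 ∂ν) /
        ∫ g in {g | g • (I : ℍ) ∈ D}, ‖Φ j g‖ ^ 2 ∂ν) atTop (𝓝 (∫ g, F g ∂μ))) :
    (∀ (t : ℝ) (A : Set SL(2, ℝ)), MeasurableSet A → (∀ γ ∈ Λ, ∀ g, γ * g ∈ A ↔ g ∈ A) →
      μ {g | g * a t ∈ A} = μ A) ∧
    (∀ f : ℍ → ℝ, Continuous f → (∀ (γ : Γ) (z : ℍ), f (γ • z) = f z) →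
      Tendsto (fun j => ∫ z in D, f z * φ j z ^ 2) atTop (𝓝 (∫ g, f (g • (I : ℍ)) ∂μ))) ∧
    ∃ (N τ : ℕ) (c : SL(2, ℝ) → Fin N) (δ : ℝ), 0 < τ ∧ 0 < δ ∧ Measurable c ∧
      (∀ γ ∈ Λ, ∀ g, c (γ * g) = c g) ∧ ∀ n : ℕ, (1 / 2 + δ) * (τ * n) ≤
        ∑ w : Fin n → Fin N,
          Real.negMulLog (μ.real {g | ∀ i : Fin n, c (g * a ((i : ℕ) * (τ : ℝ))) = w i}) := by
  rename_i m hm _ _ _ _ _ _
  obtain rfl : m = instMeasSL2 := hm.measurable_eq.trans SE.borel_SL2.measurable_eq.symm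
  obtain rfl : Λ = SE.Lam Γ := Set.ext hΛ
  obtain rfl : a = NS.aG := funext fun t => Subtype.ext (ha t)
  obtain rfl : Φ = fun j => SE.lift (φ j) (r j) := funext fun j => funext fun g => hΦ j g
  obtain ⟨l, D', hF, e⟩ := exists_FD hΓ hD hvol
  obtain ⟨ε, ε0, H⟩ := SE.exists_act hF hfree hK hcov
  have G : NS.Geo (Set.range l) ∅ := by
    simpa using NS.exists_geo hF hK hcov (A := ∅) (T₀ := 0)
      fun T _ => ⟨∅, by simpa using (Real.exp_pos _).le, by simp⟩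
  have e' : bp ⁻¹' D' =ᵐ[ν] {g | g • (I : ℍ) ∈ D} := hν.quasiMeasurePreserving.preimage_ae_eq e
  have h4' : ∀ j, ∫ z in D', φ j z ^ 2 = 1 := fun j => by rw [setIntegral_congr_set e, h4]
  have hl := fun F a b c => by simpa only [← setIntegral_congr_set e'] using hlim F a b c
  have hμ := SE.exists_apx (μ := μ) hF hK hcov hν hr h1 h2 h3 h4' hl
  have hs : Set.range l ⊆ SE.Lam Γ := by rintro _ ⟨γ, rfl⟩; exact ⟨γ, hF.act γ⟩
  have hinv := SE.Apx.inv H hΓ hs hμ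
  refine ⟨hinv, fun f cf hf => ?_, ?_⟩
  · have := SE.anchor (μ := μ) hF hK hcov hν hr h1 h2 h3 h4' hl cf hf
    simp only [setIntegral_congr_set e] at this
    exact this
  obtain ⟨N, τ, c, δ, a1, a2, a3, a4, a5⟩ := SE.strict H ε0 hK hcov hs G hμ hinv
  refine ⟨N, τ, c, δ, a1, a2, a3, a4, fun n => (a5 n).trans (le_of_eq ?_)⟩
  rw [SE.ent, SE.sum_words_ofFn]
  refine Finset.sum_congr rfl fun w _ => ?_
  have : SE.wgt μ c τ (List.ofFn w)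
      = μ.real {g | ∀ i : Fin n, c (g * NS.aG ((i : ℕ) * (τ : ℝ))) = w i} := by
    rw [SE.wgt]
    congr 1
    ext g
    simp only [Set.mem_ofPred_eq, List.length_ofFn, List.getElem_ofFn]
    exact ⟨fun h i => h i i.2, fun h j hj => h ⟨j, hj⟩⟩
  rw [SE.inf, this, Real.negMulLog]
  ring

end Pool.Agent.Variants.MP_a52643_an.StrictEntropy
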