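import Pool.Agent.Lib.MP_a52643_an.Glob

/-!
Vanishing of the third moment of Laplace eigenfunctions with bounded fourth moment on an
arbitrary hyperbolic surface of finite area.
-/

open MeasureTheory Filter Topology UpperHalfPlane
open scoped MatrixGroups ContDiff Laplacian

namespace Pool.Agent.Variants.MP_a52643_an.ThirdMoment

open Pool.Agent.Lib.MP_a52643_an

theorem result {Γ : Type} [Group Γ] [Countable Γ] [MulAction Γ ℍ]
    (hΓ : ∀ γ : Γ, ∃ g : SL(2, ℝ), ∀ z : ℍ, γ • z = g • z)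
    (D : Set ℍ) (hD : IsFundamentalDomain Γ D) (hvol : volume D ≠ ⊤)
    (φ : ℕ → ℍ → ℝ) (lam : ℕ → ℝ)
    (hinv : ∀ (j : ℕ) (γ : Γ) (z : ℍ), φ j (γ • z) = φ j z)
    (hsm : ∀ j, ContDiffOn ℝ ∞ (fun w : ℂ => φ j (ofComplex w)) {w | 0 < w.im})
    (heig : ∀ (j : ℕ) (z : ℂ), 0 < z.im →
      z.im ^ 2 * Δ (fun w : ℂ => φ j (ofComplex w)) z = -lam j * φ j (ofComplex z))
    (hlam : Tendsto lam atTop atTop)
    (hfour : ∀ j, IntegrableOn (fun z => φ j z ^ 4) D)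
    (M : ℝ) (hM : ∀ j, ∫ z in D, φ j z ^ 4 ≤ M)
    (ψ : ℍ → ℝ) (hψ : Measurable ψ) (B : ℝ) (hB : ∀ z, |ψ z| ≤ B) :
    Tendsto (fun j => ∫ z in D, ψ z * φ j z ^ 3) atTop (𝓝 0) := by
  obtain ⟨l, D', hF, e⟩ := exists_FD hΓ hD hvol
  simp only [← setIntegral_congr_set e] at hM ⊢
  exact third_FD hF hlam (fun j => ⟨hinv j, hsm j, heig j, (hfour j).congr_set_ae e⟩) hM hψ hB

end Pool.Agent.Variants.MP_a52643_an.ThirdMoment
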