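import Pool.Agent.Lib.MP_a52643_an.Law.Unif

/-!
Sharp Gaussian lower bound for the truncated fourth moment of Laplace eigenfunctions on an
arbitrary hyperbolic surface of finite area, with a defect term measuring the failure of
equidistribution. The integrand equals the fourth power where the square is at most `N`, and is
affine in the square above that level.
-/

open MeasureTheory Filter UpperHalfPlane
open scoped MatrixGroups ContDiff Laplacian

namespace Pool.Agent.Variants.MP_a52643_an.TruncFourth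

open Pool.Agent.Lib.MP_a52643_an

theorem result {Γ : Type} [Group Γ] [Countable Γ] [MulAction Γ ℍ]
    (hΓ : ∀ γ : Γ, ∃ g : SL(2, ℝ), ∀ z : ℍ, γ • z = g • z)
    (D : Set ℍ) (hD : IsFundamentalDomain Γ D) (hvol : volume D ≠ ⊤)
    (ψ : ℍ → ℝ) (hψ : Measurable ψ) (B : ℝ) (hB : ∀ z, |ψ z| ≤ B)
    (hmean : ∫ z in D, ψ z = 0) (hsq : ∫ z in D, ψ z ^ 2 ≤ 1) (ε : ℝ) (hε : 0 < ε) :
    ∃ N > 0, ∃ L : ℝ, ∀ (φ : ℍ → ℝ) (lam : ℝ),
      (∀ (γ : Γ) (z : ℍ), φ (γ • z) = φ z) →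
      ContDiffOn ℝ ∞ (fun w : ℂ => φ (ofComplex w)) {w | 0 < w.im} →
      (∀ z : ℂ, 0 < z.im →
        z.im ^ 2 * Δ (fun w : ℂ => φ (ofComplex w)) z = -lam * φ (ofComplex z)) →
      ∫ z in D, φ z ^ 2 = 1 → L ≤ lam →
      3 / volume.real D + 3 * (∫ z in D, ψ z * φ z ^ 2) ^ 2 - ε
        ≤ ∫ z in D, (φ z ^ 4 - max (φ z ^ 2 - N) 0 ^ 2) := by
  obtain ⟨l, D', hF, e⟩ := exists_FD hΓ hD hvol
  simp only [← setIntegral_congr_set e, ← measureReal_congr e] at hmean hsq ⊢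
  obtain ⟨N, hN, L, h⟩ := trunc_fourth hF hψ hB hmean hsq hε
  refine ⟨N, hN, L, fun φ lam h1 h2 h3 h4 h5 => ?_⟩
  have := h φ lam ⟨h1, h2, h3, by
    by_contra h'
    rw [integral_undef h'] at h4
    exact zero_ne_one h4⟩ h4 h5
  simpa only [HN, ← pow_mul] using this

end Pool.Agent.Variants.MP_a52643_an.TruncFourth
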